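import Mathlib
import Pool.Agent.Q35.Four

namespace Pool.Agent.Results.MP_c46995_nt.Full

open Pool.Agent.Q35

/-- `φ_4(N) = max {e : 4^e ∣ N}`, with value `⊤` at `N = 0`. -/
noncomputable def phi4 (N : ℕ) : ℕ∞ := emultiplicity 4 N

theorem four_pow_dvd_iff (N e : ℕ) (hN : N ≠ 0) : 4 ^ e ∣ N ↔ 2 * e ≤ padicValNat 2 N := by
  have : Fact (Nat.Prime 2) := ⟨Nat.prime_two⟩
  rw [show (4 : ℕ) = 2 ^ 2 by norm_num, ← pow_mul, padicValNat_dvd_iff_le hN]

theorem phi4_eq (M N : ℕ) (hM : M ≠ 0) (hN : N ≠ 0)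
    (h : padicValNat 2 M = padicValNat 2 N) : phi4 M = phi4 N := by
  unfold phi4
  rw [emultiplicity_eq_emultiplicity_iff]
  intro e
  rw [four_pow_dvd_iff M e hM, four_pow_dvd_iff N e hN, h]

theorem S_zero (t : ℕ) : S 4 t 0 = 1 := by
  obtain ⟨g, hg, h0⟩ := exists_S (R := ℤ) (b := 4) (by norm_num) t
  have h1 := S_spec (R := ℤ) (b := 4) (by norm_num) t g hg h0 0
  rw [h0] at h1
  exact_mod_cast h1

theorem S_ne_zero (t n : ℕ) (ht : t ≠ 0) (h2 : 2 ≤ padicValNat 2 t) (hn : 1 ≤ n) :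
    S 4 t n ≠ 0 := by
  intro h
  have := val_S_four t n ht h2 hn
  rw [h] at this
  simp at this
  omega

/-- For all `s ≥ 3`, `m ≥ 0`, `n ≥ 0`:
`φ_4(S_{4, 2^s m + 2^(s-1)}(n)) = φ_4(S_{4, 2^(s-1)}(n))`. -/
theorem result : ∀ s m n : ℕ, 3 ≤ s →
    phi4 (S 4 (2 ^ s * m + 2 ^ (s - 1)) n) = phi4 (S 4 (2 ^ (s - 1)) n) := by
  intro s m n hs
  have : Fact (Nat.Prime 2) := ⟨Nat.prime_two⟩
  rcases Nat.eq_zero_or_pos n with rfl | hn
  · rw [S_zero, S_zero]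
  obtain ⟨r, rfl⟩ : ∃ r, s = r + 1 := ⟨s - 1, by omega⟩
  rw [Nat.add_sub_cancel]
  have e : 2 ^ (r + 1) * m + 2 ^ r = 2 ^ r * (2 * m + 1) := by ring
  have hv : padicValNat 2 (2 ^ r) = r := padicValNat.prime_pow r
  have hv2 : padicValNat 2 (2 ^ r * (2 * m + 1)) = r := by
    rw [padicValNat.mul (by positivity) (by omega), hv, padicValNat.eq_zero_of_not_dvd (by omega),
      add_zero]
  rw [e]
  apply phi4_eq
  · exact S_ne_zero _ _ (by positivity) (by omega) hn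
  · exact S_ne_zero _ _ (by positivity) (by omega) hn
  · rw [val_S_four _ n (by positivity) (by omega) hn, val_S_four _ n (by positivity) (by omega) hn,
      hv, hv2]

end Pool.Agent.Results.MP_c46995_nt.Full
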